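import Mathlib

set_option autoImplicit false

namespace Pool.Agent.Results.MP_689627_co.JoinAboveSum

/-! ### Hyperopic Cops and Robber -/

section Game

variable {V : Type}

/-- The cops see a robber on `r` unless `r` is adjacent to the vertex of every cop. -/
def Visible (G : SimpleGraph V) {k : ℕ} (c : Fin k → V) (r : V) : Prop := ∃ i, ¬ G.Adj (c i) r

open Classical in
/-- What the cops on `c` observe if the robber is on `r`: his vertex, or nothing. -/
noncomputable def obs (G : SimpleGraph V) {k : ℕ} (c : Fin k → V) (r : V) : Option V :=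
  if Visible G c r then some r else none

/-- `S` is the set of vertices on which the robber may be, as far as the cops know, with the cops to
move.  They move to `c'` and observe `o₁`; then the robber moves and they observe `o₂`.  If no cop is
now on the robber's vertex, the robber may be on the vertices of this set. -/
def Know (G : SimpleGraph V) {k : ℕ} (c' : Fin k → V) (S : Set V) (o₁ o₂ : Option V) : Set V :=
  {r | ∃ s ∈ S, (∀ i, c' i ≠ s) ∧ obs G c' s = o₁ ∧ (r = s ∨ G.Adj s r) ∧ (∀ i, c' i ≠ r) ∧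
    obs G c' r = o₂}

/-- The cops, on `c` and to move, with the knowledge that the robber is in `S`, can guarantee capture
in finitely many moves: they have a move to some `c'` such that for all possible observations they
can guarantee capture from the resulting knowledge. -/
inductive Force (G : SimpleGraph V) {k : ℕ} : (Fin k → V) → Set V → Prop
  | step (c c' : Fin k → V) (S : Set V) (hmove : ∀ i, c' i = c i ∨ G.Adj (c i) (c' i))
      (h : ∀ o₁ o₂, (Know G c' S o₁ o₂).Nonempty → Force G c' (Know G c' S o₁ o₂)) : Force G c S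

/-- `k` cops win: they have initial vertices `c` such that, whatever they observe after the robber
has chosen his vertex, they can guarantee capture. -/
def CopsWin (G : SimpleGraph V) (k : ℕ) : Prop :=
  ∃ c : Fin k → V, ∀ o, ({r | (∀ i, c i ≠ r) ∧ obs G c r = o} : Set V).Nonempty →
    Force G c {r | (∀ i, c i ≠ r) ∧ obs G c r = o}

/-- The hyperopic cop number. -/
noncomputable def cH (G : SimpleGraph V) : ℕ := sInf {k | CopsWin G k}

/-- `S` is a small common neighbourhood set. -/
def SmallCommon (G : SimpleGraph V) (S : Finset V) : Prop :=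
  S.Nonempty ∧ {x | ∀ v ∈ S, G.Adj v x}.ncard ≤ S.card

/-- `Υ(G)`, the least size of a small common neighbourhood set. -/
noncomputable def Upsilon (G : SimpleGraph V) : ℕ := sInf {n | ∃ S, SmallCommon G S ∧ S.card = n}

/-- The join of two graphs. -/
def join {W : Type} (G : SimpleGraph V) (J : SimpleGraph W) : SimpleGraph (V ⊕ W) where
  Adj
    | Sum.inl u, Sum.inl v => G.Adj u v
    | Sum.inr u, Sum.inr v => J.Adj u v
    | _, _ => True
  symm := ⟨by
    rintro (u | u) (v | v) h
    · exact SimpleGraph.Adj.symm (G := G) h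
    · trivial
    · trivial
    · exact SimpleGraph.Adj.symm (G := J) h⟩
  loopless := ⟨by
    rintro (u | u) h
    · exact G.loopless.irrefl u h
    · exact J.loopless.irrefl u h⟩

/-! ### Monotonicity in the number of cops -/

lemma obs_comp {G : SimpleGraph V} {k l : ℕ} (f : Fin l → Fin k) (hf : Function.Surjective f)
    (c : Fin k → V) (r : V) : obs G (c ∘ f) r = obs G c r := by
  have h : Visible G (c ∘ f) r ↔ Visible G c r := by
    constructor
    · rintro ⟨i, hi⟩; exact ⟨f i, hi⟩
    · rintro ⟨i, hi⟩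
      obtain ⟨j, rfl⟩ := hf i
      exact ⟨j, hi⟩
  unfold obs
  by_cases hv : Visible G c r
  · rw [if_pos hv, if_pos (h.2 hv)]
  · rw [if_neg hv, if_neg (fun h' => hv (h.1 h'))]

lemma forall_comp {k l : ℕ} (f : Fin l → Fin k) (hf : Function.Surjective f)
    (c : Fin k → V) (r : V) : (∀ i, (c ∘ f) i ≠ r) ↔ ∀ i, c i ≠ r := by
  constructor
  · intro h i
    obtain ⟨j, rfl⟩ := hf i
    exact h j
  · intro h i; exact h (f i)

lemma know_comp {G : SimpleGraph V} {k l : ℕ} (f : Fin l → Fin k) (hf : Function.Surjective f)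
    (c : Fin k → V) (S : Set V) (o₁ o₂ : Option V) :
    Know G (c ∘ f) S o₁ o₂ = Know G c S o₁ o₂ := by
  unfold Know
  simp only [obs_comp f hf, forall_comp f hf]

lemma Force.comp {G : SimpleGraph V} {k l : ℕ} (f : Fin l → Fin k) (hf : Function.Surjective f)
    {c : Fin k → V} {S : Set V} (h : Force G c S) : Force G (c ∘ f) S := by
  induction h with
  | step c c' S hmove _ ih =>
    refine Force.step _ (c' ∘ f) S (fun i => hmove (f i)) fun o₁ o₂ hne => ?_
    rw [know_comp f hf] at hne ⊢
    exact ih o₁ o₂ hne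

lemma CopsWin.comp {G : SimpleGraph V} {k l : ℕ} (f : Fin l → Fin k) (hf : Function.Surjective f)
    (h : CopsWin G k) : CopsWin G l := by
  obtain ⟨c, hc⟩ := h
  refine ⟨c ∘ f, fun o hne => ?_⟩
  simp only [obs_comp f hf, forall_comp f hf] at hne ⊢
  exact (hc o hne).comp f hf

lemma not_force_zero {G : SimpleGraph V} {c : Fin 0 → V} {S : Set V} (hS : S.Nonempty) :
    ¬ Force G c S := by
  intro h
  induction h with
  | step c c' S _ _ ih =>
    obtain ⟨s, hs⟩ := hS
    have hne : (Know G c' S (obs G c' s) (obs G c' s)).Nonempty :=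
      ⟨s, s, hs, fun i => i.elim0, rfl, Or.inl rfl, fun i => i.elim0, rfl⟩
    exact ih _ _ hne hne

lemma copsWin_of_le {G : SimpleGraph V} [Nonempty V] {k l : ℕ} (hk : k ≤ l)
    (h : CopsWin G k) : CopsWin G l := by
  rcases Nat.eq_zero_or_pos k with rfl | hpos
  · obtain ⟨c, hc⟩ := h
    obtain ⟨v⟩ := ‹Nonempty V›
    have hne : ({r | (∀ i, c i ≠ r) ∧ obs G c r = obs G c v} : Set V).Nonempty :=
      ⟨v, fun i => i.elim0, rfl⟩
    exact absurd (hc _ hne) (not_force_zero hne)
  · refine h.comp (fun i => ⟨min i (k - 1), by omega⟩) (fun i => ⟨⟨i, by omega⟩, ?_⟩)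
    apply Fin.ext
    show min (i : ℕ) (k - 1) = i
    omega

lemma copsWin_card {G : SimpleGraph V} {k : ℕ} (e : Fin k → V) (he : Function.Surjective e) :
    CopsWin G k := by
  refine ⟨e, fun o hne => ?_⟩
  obtain ⟨r, hr, _⟩ := hne
  obtain ⟨i, hi⟩ := he r
  exact absurd hi (hr i)

end Game

/-- `m(X) = min (c_H(X), Υ(X))`. -/
noncomputable def mm {V : Type} (G : SimpleGraph V) : ℕ := min (cH G) (Upsilon G)

/-! ### Encoding by bit masks -/

/-- adjacency read off from a list of neighbourhood masks -/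
def adjB (nb : List ℕ) (u v : ℕ) : Bool := (nb.getD u 0).testBit v

section Transfer

variable {V : Type} {G : SimpleGraph V} {N : ℕ} {nb : List ℕ} {ix : V → ℕ}

/-- The numbering `ix` and the masks `nb` describe the graph `G` on `N` vertices. -/
structure Numbering (G : SimpleGraph V) (N : ℕ) (nb : List ℕ) (ix : V → ℕ) : Prop where
  inj : Function.Injective ix
  lt : ∀ v, ix v < N
  surj : ∀ i, i < N → ∃ v, ix v = i
  adj : ∀ u v, G.Adj u v ↔ adjB nb (ix u) (ix v) = true

/-- all vertices of the mask are in `S` -/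
def Sub (ix : V → ℕ) (M : ℕ) (S : Set V) : Prop := ∀ v, M.testBit (ix v) = true → v ∈ S

lemma obs_none_iff {k : ℕ} (c : Fin k → V) (s : V) : obs G c s = none ↔ ∀ i, G.Adj (c i) s := by
  unfold obs Visible
  by_cases h : ∃ i, ¬ G.Adj (c i) s
  · rw [if_pos h]
    simp only [reduceCtorEq, false_iff, not_forall]
    exact h
  · rw [if_neg h]
    simp only [true_iff]
    push Not at h
    exact h

lemma obs_some_iff {k : ℕ} (c : Fin k → V) (s t : V) :
    obs G c s = some t ↔ s = t ∧ ∃ i, ¬ G.Adj (c i) s := by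
  unfold obs Visible
  by_cases h : ∃ i, ¬ G.Adj (c i) s
  · rw [if_pos h]
    simp [h]
  · rw [if_neg h]
    simp [h]

lemma know_mono {k : ℕ} (c' : Fin k → V) {S T : Set V} (h : S ⊆ T) (o₁ o₂ : Option V) :
    Know G c' S o₁ o₂ ⊆ Know G c' T o₁ o₂ := by
  rintro r ⟨s, hs, h2⟩
  exact ⟨s, h hs, h2⟩

lemma Force.mono {k : ℕ} {c : Fin k → V} {S T : Set V} (h : Force G c T) (hST : S ⊆ T) :
    Force G c S := by
  induction h generalizing S with
  | step c c' T hmove _ ih =>
    refine Force.step c c' S hmove fun o₁ o₂ hne => ?_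
    exact ih o₁ o₂ (hne.mono (know_mono c' hST o₁ o₂)) (know_mono c' hST o₁ o₂)

/-! ### Two cops winning: a list of knowledge states -/

/-- code of the observation (`N` for none) -/
def obsB (nb : List ℕ) (N a b s : ℕ) : ℕ := if adjB nb a s && adjB nb b s then N else s

/-- code of an observation -/
def ocode (N : ℕ) (ix : V → ℕ) : Option V → ℕ
  | none => N
  | some t => ix t

/-- `v` is a possible vertex of the robber after observations `o₁`, `o₂` -/
def knowB (nb : List ℕ) (N M a b o₁ o₂ v : ℕ) : Bool :=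
  v != a && v != b && obsB nb N a b v == o₂ && (List.range N).any fun s =>
    M.testBit s && s != a && s != b && obsB nb N a b s == o₁ && (v == s || adjB nb s v)

/-- A state: cops at `a`, `b`, knowledge `M`, next cop positions `a'`, `b'`. -/
structure Entry where
  a : ℕ
  b : ℕ
  M : ℕ
  a' : ℕ
  b' : ℕ

/-- the successors of the entry are covered by `l` -/
def Entry.ok (nb : List ℕ) (N : ℕ) (e : Entry) (l : List Entry) : Bool :=
  (e.a' == e.a || adjB nb e.a e.a') && (e.b' == e.b || adjB nb e.b e.b') &&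
  (List.range (N + 1)).all fun o₁ => (List.range (N + 1)).all fun o₂ =>
    ((List.range N).all fun v => !(knowB nb N e.M e.a' e.b' o₁ o₂ v)) ||
    l.any fun f => f.a == e.a' && f.b == e.b' &&
      (List.range N).all fun v => !(knowB nb N e.M e.a' e.b' o₁ o₂ v) || f.M.testBit v

/-- every entry is covered by the later ones -/
def valid (nb : List ℕ) (N : ℕ) : List Entry → Bool
  | [] => true
  | e :: l => e.ok nb N l && valid nb N l

lemma obsB_iff (H : Numbering G N nb ix) (c : Fin 2 → V) (s : V) (o : Option V)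
    (h : obs G c s = o) :
    obsB nb N (ix (c 0)) (ix (c 1)) (ix s) = ocode N ix o := by
  cases o with
  | none =>
    rw [obs_none_iff] at h
    have hb : (adjB nb (ix (c 0)) (ix s) && adjB nb (ix (c 1)) (ix s)) = true := by
      rw [Bool.and_eq_true, ← H.adj, ← H.adj]
      exact ⟨h 0, h 1⟩
    unfold obsB
    rw [if_pos hb]
    rfl
  | some t =>
    rw [obs_some_iff] at h
    obtain ⟨rfl, i, hi⟩ := h
    have hb : ¬ (adjB nb (ix (c 0)) (ix s) && adjB nb (ix (c 1)) (ix s)) = true := by
      rw [Bool.and_eq_true, ← H.adj, ← H.adj]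
      rintro ⟨h0, h1⟩
      fin_cases i
      · exact hi h0
      · exact hi h1
    unfold obsB
    rw [if_neg hb]
    rfl

lemma knowB_of (H : Numbering G N nb ix) (c' : Fin 2 → V) {S : Set V} {M : ℕ}
    (hS : ∀ v ∈ S, M.testBit (ix v) = true) {o₁ o₂ : Option V} {v : V}
    (hv : v ∈ Know G c' S o₁ o₂) :
    knowB nb N M (ix (c' 0)) (ix (c' 1)) (ocode N ix o₁) (ocode N ix o₂) (ix v) = true := by
  obtain ⟨s, hs, h1, h2, h3, h4, h5⟩ := hv
  unfold knowB
  simp only [Bool.and_eq_true, List.any_eq_true, List.mem_range, bne_iff_ne, ne_eq, beq_iff_eq,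
    Bool.or_eq_true]
  refine ⟨⟨⟨fun h => h4 0 (H.inj h).symm, fun h => h4 1 (H.inj h).symm⟩, obsB_iff H c' v o₂ h5⟩,
    ix s, H.lt s, ⟨⟨⟨hS s hs, fun h => h1 0 (H.inj h).symm⟩, fun h => h1 1 (H.inj h).symm⟩,
    obsB_iff H c' s o₁ h2⟩, ?_⟩
  rcases h3 with h3 | h3
  · left; rw [h3]
  · right; exact (H.adj _ _).1 h3

lemma code_lt (H : Numbering G N nb ix) (o : Option V) :
    ocode N ix o < N + 1 := by
  cases o with
  | none => exact Nat.lt_succ_self N
  | some t => exact Nat.lt_succ_of_lt (H.lt t)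

lemma force_of_valid (H : Numbering G N nb ix) (l : List Entry) (hv : valid nb N l = true) :
    ∀ e ∈ l, ∀ (c : Fin 2 → V) (S : Set V), ix (c 0) = e.a → ix (c 1) = e.b →
      e.a' < N → e.b' < N → (∀ f ∈ l, f.a' < N ∧ f.b' < N) →
      (∀ v ∈ S, e.M.testBit (ix v) = true) → Force G c S := by
  induction l with
  | nil => intro e he; simp at he
  | cons e₀ l ih =>
    intro e he c S ha hb ha' hb' hlt hS
    simp only [valid, Bool.and_eq_true] at hv
    rcases List.mem_cons.1 he with rfl | he
    · obtain ⟨hok, hval⟩ := hv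
      unfold Entry.ok at hok
      simp only [Bool.and_eq_true, List.all_eq_true, List.mem_range] at hok
      obtain ⟨⟨hm1, hm2⟩, hcov⟩ := hok
      obtain ⟨x, hx⟩ := H.surj _ ha'
      obtain ⟨y, hy⟩ := H.surj _ hb'
      refine Force.step c ![x, y] S ?_ ?_
      · intro i
        fin_cases i
        · show x = c 0 ∨ G.Adj (c 0) x
          rw [H.adj, ha, hx]
          simp only [Bool.or_eq_true, beq_iff_eq] at hm1
          rcases hm1 with h | h
          · left; exact H.inj (by rw [hx, ha, h])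
          · right; exact h
        · show y = c 1 ∨ G.Adj (c 1) y
          rw [H.adj, hb, hy]
          simp only [Bool.or_eq_true, beq_iff_eq] at hm2
          rcases hm2 with h | h
          · left; exact H.inj (by rw [hy, hb, h])
          · right; exact h
      · intro o₁ o₂ hne
        have h1 := hcov _ (code_lt H o₁) _ (code_lt H o₂)
        have hk : ∀ v ∈ Know G ![x, y] S o₁ o₂, knowB nb N e.M e.a' e.b'
            (ocode N ix o₁) (ocode N ix o₂) (ix v) = true := by
          intro v hv'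
          have := knowB_of H ![x, y] hS hv'
          simp only [Matrix.cons_val_zero, Matrix.cons_val_one] at this
          rwa [hx, hy] at this
        rw [Bool.or_eq_true] at h1
        rcases h1 with h1 | h1
        · obtain ⟨v, hv'⟩ := hne
          rw [List.all_eq_true] at h1
          have h2 := h1 (ix v) (List.mem_range.2 (H.lt v))
          rw [hk v hv'] at h2
          simp at h2
        · rw [List.any_eq_true] at h1
          obtain ⟨f, hf, h2⟩ := h1
          simp only [Bool.and_eq_true, beq_iff_eq, List.all_eq_true, List.mem_range] at h2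
          obtain ⟨⟨hfa, hfb⟩, hfM⟩ := h2
          have hfl := hlt f (List.mem_cons_of_mem _ hf)
          refine ih hval f hf ![x, y] _ ?_ ?_ hfl.1 hfl.2
            (fun g hg => hlt g (List.mem_cons_of_mem _ hg)) ?_
          · show ix x = f.a
            rw [hx, hfa]
          · show ix y = f.b
            rw [hy, hfb]
          · intro v hv'
            have h3 := hfM (ix v) (H.lt v)
            rw [hk v hv'] at h3
            simpa using h3
    · exact ih hv.2 e he c S ha hb ha' hb' (fun g hg => hlt g (List.mem_cons_of_mem _ hg)) hS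

/-! ### Three cops losing: a list of knowledge sets -/

/-- all three cops are adjacent to `v` -/
def adj3 (nb : List ℕ) (a b d v : ℕ) : Bool := adjB nb a v && adjB nb b v && adjB nb d v

/-- the robber stays invisible before his move: `M'` is contained in the new knowledge -/
def invOK (nb : List ℕ) (N M a b d M' : ℕ) : Bool :=
  (List.range N).all fun v => !(M'.testBit v) || (List.range N).any fun s =>
    M.testBit s && adj3 nb a b d s && (v == s || adjB nb s v)

/-- the robber is seen on `s`: `M'` is contained in the new knowledge -/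
def visOK (nb : List ℕ) (N a b d s M' : ℕ) : Bool :=
  s != a && s != b && s != d && !(adj3 nb a b d s) &&
    (List.range N).all fun v => !(M'.testBit v) || (v == s || adjB nb s v)

/-- common neighbourhood of three vertices, as a mask -/
def cn3 (nb : List ℕ) (a b d : ℕ) : ℕ := nb.getD a 0 &&& nb.getD b 0 &&& nb.getD d 0

/-- After a cop move to `a`, `b`, `d` the robber can get from `M` to a member of `L`. -/
def gridOK (nb : List ℕ) (N : ℕ) (L : List ℕ) (a b d M : ℕ) : Bool :=
  (L.any fun M' => (M' &&& cn3 nb a b d == M') && invOK nb N M a b d M') ||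
  (List.range N).any fun s => M.testBit s &&
    L.any fun M' => (M' &&& cn3 nb a b d == M') && visOK nb N a b d s M'

/-- the whole check -/
def grid (nb : List ℕ) (N : ℕ) (L : List ℕ) : Bool :=
  (List.range N).all fun a => (List.range N).all fun b => !(Nat.ble a b) ||
    (List.range N).all fun d => !(Nat.ble b d) ||
      ((L.any fun M' => M' &&& cn3 nb a b d == M') && L.all fun M => gridOK nb N L a b d M)

lemma sort3 (x y z : ℕ) : ∃ a b d : ℕ, a ≤ b ∧ b ≤ d ∧ (a = x ∨ a = y ∨ a = z) ∧
    (b = x ∨ b = y ∨ b = z) ∧ (d = x ∨ d = y ∨ d = z) ∧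
    ∀ P : ℕ → Prop, (P x ∧ P y ∧ P z) ↔ (P a ∧ P b ∧ P d) := by
  rcases le_total x y with h1 | h1 <;> rcases le_total y z with h2 | h2 <;>
    rcases le_total x z with h3 | h3
  · exact ⟨x, y, z, h1, h2, by tauto, by tauto, by tauto, fun P => by tauto⟩
  · exact ⟨x, y, z, h1, h2, by tauto, by tauto, by tauto, fun P => by tauto⟩
  · exact ⟨x, z, y, h3, h2, by tauto, by tauto, by tauto, fun P => by tauto⟩
  · exact ⟨z, x, y, h3, h1, by tauto, by tauto, by tauto, fun P => by tauto⟩
  · exact ⟨y, x, z, h1, h3, by tauto, by tauto, by tauto, fun P => by tauto⟩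
  · exact ⟨y, z, x, h2, h3, by tauto, by tauto, by tauto, fun P => by tauto⟩
  · exact ⟨z, y, x, h2, h1, by tauto, by tauto, by tauto, fun P => by tauto⟩
  · exact ⟨z, y, x, h2, h1, by tauto, by tauto, by tauto, fun P => by tauto⟩

lemma sub_of_land {M K v : ℕ} (h : M &&& K = M) (hv : M.testBit v = true) :
    K.testBit v = true := by
  rw [← h, Nat.testBit_and, Bool.and_eq_true] at hv
  exact hv.2

lemma cn3_testBit {a b d v : ℕ} (h : (cn3 nb a b d).testBit v = true) :
    adj3 nb a b d v = true := by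
  unfold cn3 at h
  unfold adj3 adjB
  rwa [Nat.testBit_and, Nat.testBit_and] at h

lemma grid_spec {L : List ℕ} (hL : grid nb N L = true) (H : Numbering G N nb ix)
    (c : Fin 3 → V) :
    ∃ a b d : ℕ, (∀ P : ℕ → Prop, (∀ i, P (ix (c i))) ↔ (P a ∧ P b ∧ P d)) ∧
      (∃ M' ∈ L, M' &&& cn3 nb a b d = M') ∧ ∀ M ∈ L, gridOK nb N L a b d M = true := by
  obtain ⟨a, b, d, hab, hbd, ha, hb, hd, hP⟩ := sort3 (ix (c 0)) (ix (c 1)) (ix (c 2))
  have hlt : ∀ x, (x = ix (c 0) ∨ x = ix (c 1) ∨ x = ix (c 2)) → x < N := by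
    rintro x (h | h | h) <;> rw [h] <;> exact H.lt _
  unfold grid at hL
  simp only [List.all_eq_true, List.mem_range] at hL
  have h1 := hL a (hlt a ha) b (hlt b hb)
  rw [Nat.ble_eq.mpr hab, Bool.not_true, Bool.false_or, List.all_eq_true] at h1
  have h2 := h1 d (List.mem_range.2 (hlt d hd))
  rw [Nat.ble_eq.mpr hbd, Bool.not_true, Bool.false_or, Bool.and_eq_true, List.any_eq_true,
    List.all_eq_true] at h2
  refine ⟨a, b, d, ?_, ?_, h2.2⟩
  · intro P
    rw [← hP P]
    constructor
    · intro h; exact ⟨h 0, h 1, h 2⟩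
    · rintro ⟨h0, h1', h2'⟩ i
      fin_cases i
      · exact h0
      · exact h1'
      · exact h2'
  · obtain ⟨M', hM', h3⟩ := h2.1
    exact ⟨M', hM', beq_iff_eq.1 h3⟩

lemma not_force3 {L : List ℕ} (hL : grid nb N L = true) (H : Numbering G N nb ix)
    {c : Fin 3 → V} {S : Set V} (h : Force G c S) : ∀ M ∈ L, M ≠ 0 → M < 2 ^ N →
      (∀ M' ∈ L, M' ≠ 0 ∧ M' < 2 ^ N) → ¬ Sub ix M S := by
  induction h with
  | step c c' S hmove _ ih =>
    intro M hM _ _ hall hsub
    obtain ⟨a, b, d, hP, _, hgrid⟩ := grid_spec hL H c'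
    have hg := hgrid M hM
    have hadj : ∀ v, (∀ i, G.Adj (c' i) v) ↔ adj3 nb a b d (ix v) = true := by
      intro v
      have h1 := hP (fun u => adjB nb u (ix v) = true)
      unfold adj3
      rw [Bool.and_eq_true, Bool.and_eq_true, and_assoc, ← h1]
      exact forall_congr' fun i => H.adj _ _
    have hne : ∀ v, (∀ i, G.Adj (c' i) v) → ∀ i, c' i ≠ v := by
      intro v hv i hi
      have := hv i
      rw [hi] at this
      exact G.loopless.irrefl _ this
    -- it is enough to find a member of `L` inside the new knowledge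
    suffices hsuff : ∃ M' ∈ L, ∃ o₁, Sub ix M' (Know G c' S o₁ none) by
      obtain ⟨M', hM', o₁, hs⟩ := hsuff
      obtain ⟨h0, hlt⟩ := hall M' hM'
      have : ∃ v, M'.testBit (ix v) = true := by
        obtain ⟨i, hi⟩ := Nat.exists_testBit_of_ne_zero h0
        have hiN : i < N := by
          by_contra hcon
          push Not at hcon
          rw [Nat.testBit_lt_two_pow (lt_of_lt_of_le hlt
            (Nat.pow_le_pow_right (by norm_num) hcon))] at hi
          exact absurd hi (by simp)
        obtain ⟨v, rfl⟩ := H.surj i hiN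
        exact ⟨v, hi⟩
      obtain ⟨v, hv⟩ := this
      exact ih o₁ none ⟨v, hs v hv⟩ M' hM' h0 hlt hall hs
    unfold gridOK at hg
    rw [Bool.or_eq_true, List.any_eq_true, List.any_eq_true] at hg
    rcases hg with ⟨M', hM', h1⟩ | ⟨i, hi, h1⟩
    · rw [Bool.and_eq_true, beq_iff_eq] at h1
      obtain ⟨hcn, hinv⟩ := h1
      refine ⟨M', hM', none, fun v hv => ?_⟩
      have hv3 := (hadj v).2 (cn3_testBit (sub_of_land hcn hv))
      unfold invOK at hinv
      simp only [List.all_eq_true, List.mem_range] at hinv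
      have h2 := hinv (ix v) (H.lt v)
      rw [hv, Bool.not_true, Bool.false_or, List.any_eq_true] at h2
      obtain ⟨j, hj, h3⟩ := h2
      obtain ⟨s, rfl⟩ := H.surj j (List.mem_range.1 hj)
      rw [Bool.and_eq_true, Bool.and_eq_true, Bool.or_eq_true, beq_iff_eq, ← hadj, ← H.adj] at h3
      obtain ⟨⟨h4, h5⟩, h6⟩ := h3
      refine ⟨s, hsub s h4, hne s h5, (obs_none_iff c' s).2 h5, ?_, hne v hv3,
        (obs_none_iff c' v).2 hv3⟩
      rcases h6 with h6 | h6
      · exact Or.inl (H.inj h6)
      · exact Or.inr h6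
    · obtain ⟨s, rfl⟩ := H.surj i (List.mem_range.1 hi)
      rw [Bool.and_eq_true, List.any_eq_true] at h1
      obtain ⟨hs, M', hM', h2⟩ := h1
      rw [Bool.and_eq_true, beq_iff_eq] at h2
      obtain ⟨hcn, hvis⟩ := h2
      unfold visOK at hvis
      simp only [Bool.and_eq_true, bne_iff_ne, ne_eq, Bool.not_eq_true'] at hvis
      obtain ⟨⟨⟨⟨ha, hb⟩, hd⟩, hns⟩, hmv⟩ := hvis
      have hsne : ∀ j, c' j ≠ s := by
        have := (hP (fun u => ix s ≠ u)).2 ⟨ha, hb, hd⟩
        intro j hj
        exact this j (by rw [hj])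
      have hnot : ¬ ∀ j, G.Adj (c' j) s := by
        rw [hadj, hns]; simp
      have hobs : obs G c' s = some s := by
        rw [obs_some_iff]
        push Not at hnot
        exact ⟨rfl, hnot⟩
      refine ⟨M', hM', some s, fun v hv => ?_⟩
      have hv3 := (hadj v).2 (cn3_testBit (sub_of_land hcn hv))
      rw [List.all_eq_true] at hmv
      have h2 := hmv (ix v) (List.mem_range.2 (H.lt v))
      rw [hv, Bool.not_true, Bool.false_or, Bool.or_eq_true, beq_iff_eq, ← H.adj] at h2
      refine ⟨s, hsub s hs, hsne, hobs, ?_, hne v hv3, (obs_none_iff c' v).2 hv3⟩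
      rcases h2 with h2 | h2
      · exact Or.inl (H.inj h2)
      · exact Or.inr h2

theorem not_copsWin3 {L : List ℕ} (hL : grid nb N L = true) (H : Numbering G N nb ix)
    (hall : ∀ M' ∈ L, M' ≠ 0 ∧ M' < 2 ^ N) : ¬ CopsWin G 3 := by
  rintro ⟨c, hc⟩
  obtain ⟨a, b, d, hP, ⟨M, hM, hcn⟩, _⟩ := grid_spec hL H c
  obtain ⟨h0, hlt⟩ := hall M hM
  have hadj : ∀ v, (∀ i, G.Adj (c i) v) ↔ adj3 nb a b d (ix v) = true := by
    intro v
    have h1 := hP (fun u => adjB nb u (ix v) = true)
    unfold adj3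
    rw [Bool.and_eq_true, Bool.and_eq_true, and_assoc, ← h1]
    exact forall_congr' fun i => H.adj _ _
  have hs : Sub ix M {r | (∀ i, c i ≠ r) ∧ obs G c r = none} := by
    intro v hv
    have hv3 := (hadj v).2 (cn3_testBit (sub_of_land hcn hv))
    refine ⟨fun i hi => ?_, (obs_none_iff c v).2 hv3⟩
    have := hv3 i
    rw [hi] at this
    exact G.loopless.irrefl _ this
  have : ∃ v, M.testBit (ix v) = true := by
    obtain ⟨i, hi⟩ := Nat.exists_testBit_of_ne_zero h0
    have hiN : i < N := by
      by_contra hcon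
      push Not at hcon
      rw [Nat.testBit_lt_two_pow (lt_of_lt_of_le hlt
        (Nat.pow_le_pow_right (by norm_num) hcon))] at hi
      exact absurd hi (by simp)
    obtain ⟨v, rfl⟩ := H.surj i hiN
    exact ⟨v, hi⟩
  obtain ⟨v, hv⟩ := this
  exact not_force3 hL H (hc none ⟨v, hs v hv⟩) M hM h0 hlt hall hs

end Transfer

/-! ### The graphs -/

/-- Non-adjacency in `G`: the sets `{0, 1}` and `{2, 3}` are not joined. -/
def nonB (a b : Fin 7) : Bool := (a.val < 2 && (b.val == 2 || b.val == 3)) ||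
  (b.val < 2 && (a.val == 2 || a.val == 3))

/-- `G`: two complete graphs on five vertices (`{0, 1, 4, 5, 6}` and `{2, 3, 4, 5, 6}`) that share
three vertices. -/
def G₀ : SimpleGraph (Fin 7) where
  Adj a b := a ≠ b ∧ nonB a b = false
  symm := ⟨by decide⟩
  loopless := ⟨by decide⟩

/-- `J`: the path on three vertices, with middle vertex `0`. -/
def J₀ : SimpleGraph (Fin 3) where
  Adj a b := a ≠ b ∧ (a = 0 ∨ b = 0)
  symm := ⟨by decide⟩
  loopless := ⟨by decide⟩

lemma conn_of_center {n : ℕ} {K : SimpleGraph (Fin n)} (z : Fin n) (h : ∀ v, v ≠ z → K.Adj v z) :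
    K.Connected := by
  have h0 : ∀ v : Fin n, K.Reachable v z := by
    intro v
    by_cases hv : v = z
    · rw [hv]
    · exact (h v hv).reachable
  have : Nonempty (Fin n) := ⟨z⟩
  exact ⟨fun u v => (h0 u).trans (h0 v).symm⟩

lemma G₀_conn : G₀.Connected := by
  have h : ∀ v : Fin 7, v ≠ 4 → (v ≠ 4 ∧ nonB v 4 = false) := by decide
  exact conn_of_center 4 h

lemma J₀_conn : J₀.Connected := by
  have h : ∀ v : Fin 3, v ≠ 0 → (v ≠ 0 ∧ (v = 0 ∨ (0 : Fin 3) = 0)) := by decide
  exact conn_of_center 0 h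

/-- masks of `G` -/
def nbG : List ℕ := [114, 113, 120, 116, 111, 95, 63]

/-- masks of the join -/
def nbH : List ℕ := [1010, 1009, 1016, 1012, 1007, 991, 959, 895, 255, 255]

lemma numG : Numbering G₀ 7 nbG (fun v : Fin 7 => (v : ℕ)) where
  inj := fun _ _ h => Fin.ext h
  lt := fun v => v.2
  surj := fun i hi => ⟨⟨i, hi⟩, rfl⟩
  adj := by
    have h : ∀ u v : Fin 7, (u ≠ v ∧ nonB u v = false) ↔ adjB nbG u v = true := by decide
    exact h

/-- numbering of the vertices of the join -/
def ixH : Fin 7 ⊕ Fin 3 → ℕ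
  | Sum.inl i => i
  | Sum.inr j => 7 + j

lemma numH : Numbering (join G₀ J₀) 10 nbH ixH where
  inj := by
    rintro (u | u) (v | v) h
    · exact congrArg Sum.inl (Fin.ext h)
    · have h' : (u : ℕ) = 7 + v := h
      omega
    · have h' : 7 + (u : ℕ) = v := h
      omega
    · have h' : 7 + (u : ℕ) = 7 + v := h
      exact congrArg Sum.inr (Fin.ext (by omega))
  lt := by
    rintro (u | u)
    · show (u : ℕ) < 10
      omega
    · show 7 + (u : ℕ) < 10
      omega
  surj := by
    intro i hi
    by_cases h : i < 7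
    · exact ⟨Sum.inl ⟨i, h⟩, rfl⟩
    · refine ⟨Sum.inr ⟨i - 7, by omega⟩, ?_⟩
      show 7 + (i - 7) = i
      omega
  adj := by
    have h1 : ∀ u v : Fin 7, (u ≠ v ∧ nonB u v = false) ↔ adjB nbH u v = true := by decide
    have h2 : ∀ (u : Fin 7) (v : Fin 3),
        adjB nbH u (7 + v) = true ∧ adjB nbH (7 + v) u = true := by decide
    have h3 : ∀ u v : Fin 3, (u ≠ v ∧ (u = 0 ∨ v = 0)) ↔ adjB nbH (7 + u) (7 + v) = true := by
      decide
    rintro (u | u) (v | v)
    · exact h1 u v
    · show True ↔ adjB nbH u (7 + v) = true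
      simp [(h2 u v).1]
    · show True ↔ adjB nbH (7 + u) v = true
      simp [(h2 v u).2]
    · exact h3 u v

/-- a winning strategy of two cops on `G`, starting at `0` and `4` -/
def strat : List Entry :=
  [⟨0, 4, 98, 5, 6⟩, ⟨5, 6, 19, 2, 4⟩, ⟨2, 4, 2, 2, 1⟩, ⟨2, 4, 1, 2, 0⟩, ⟨2, 4, 96, 5, 6⟩,
   ⟨0, 4, 4, 0, 2⟩, ⟨0, 4, 8, 0, 3⟩]

lemma strat_valid : valid nbG 7 strat = true := by decide +kernel

lemma strat_lt : ∀ f ∈ strat, f.a' < 7 ∧ f.b' < 7 := by
  intro f hf
  simp only [strat, List.mem_cons, List.not_mem_nil, or_false] at hf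
  rcases hf with rfl | rfl | rfl | rfl | rfl | rfl | rfl <;> exact ⟨by norm_num, by norm_num⟩

lemma start_cover : ∀ v : Fin 7, v ≠ 0 → v ≠ 4 →
    ((adjB nbG 0 v && adjB nbG 4 v) = true ∧ Nat.testBit 98 v = true) ∨
    ((adjB nbG 0 v && adjB nbG 4 v) = false ∧ (v = 2 ∨ v = 3)) := by decide

lemma cH_G₀ : cH G₀ ≤ 2 := by
  refine Nat.sInf_le ⟨![0, 4], fun o _ => ?_⟩
  have hF : ∀ e ∈ strat, e.a = 0 → e.b = 4 → ∀ S : Set (Fin 7),
      (∀ v ∈ S, e.M.testBit (v : ℕ) = true) → Force G₀ ![0, 4] S := by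
    intro e he ha hb S hS
    have hlt := strat_lt e he
    exact force_of_valid numG strat strat_valid e he ![0, 4] S (by rw [ha]; rfl) (by rw [hb]; rfl)
      hlt.1 hlt.2 strat_lt hS
  cases o with
  | none =>
    refine hF ⟨0, 4, 98, 5, 6⟩ (by simp [strat]) rfl rfl _ ?_
    rintro v ⟨hv, ho⟩
    rw [obs_none_iff] at ho
    have h0 := (numG.adj _ _).1 (ho 0)
    have h1 := (numG.adj _ _).1 (ho 1)
    have hb : (adjB nbG 0 v && adjB nbG 4 v) = true := by
      rw [Bool.and_eq_true]; exact ⟨h0, h1⟩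
    rcases start_cover v (fun h => hv 0 h.symm) (fun h => hv 1 h.symm) with h | h
    · exact h.2
    · rw [hb] at h
      exact absurd h.1 (by simp)
  | some t =>
    by_cases ht : t = 2
    · refine hF ⟨0, 4, 4, 0, 2⟩ (by simp [strat]) rfl rfl _ ?_
      rintro v ⟨hv, ho⟩
      rw [obs_some_iff] at ho
      rw [ho.1, ht]
      decide
    · by_cases ht3 : t = 3
      · refine hF ⟨0, 4, 8, 0, 3⟩ (by simp [strat]) rfl rfl _ ?_
        rintro v ⟨hv, ho⟩
        rw [obs_some_iff] at ho
        rw [ho.1, ht3]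
        decide
      · refine hF ⟨0, 4, 8, 0, 3⟩ (by simp [strat]) rfl rfl _ ?_
        rintro v ⟨hv, ho⟩
        exfalso
        rw [obs_some_iff] at ho
        obtain ⟨rfl, i, hi⟩ := ho
        rcases start_cover v (fun h => hv 0 h.symm) (fun h => hv 1 h.symm) with h | h
        · rw [Bool.and_eq_true] at h
          apply hi
          fin_cases i
          · exact (numG.adj _ _).2 h.1.1
          · exact (numG.adj _ _).2 h.1.2
        · rcases h.2 with h2 | h2
          · exact ht h2
          · exact ht3 h2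

/-- knowledge sets from which the robber escapes three cops on the join -/
def masks : List ℕ :=
  [113, 114, 116, 120, 177, 178, 180, 184, 209, 210, 212, 216, 225, 226, 228, 232, 240, 787,
   796, 803, 812, 817, 818, 820, 824, 835, 844, 849, 850, 852, 856, 865, 866, 868, 872, 880,
   899, 908, 913, 914, 916, 920, 929, 930, 932, 936, 944, 961, 962, 964, 968, 976, 992, 63,
   95, 111, 159, 175, 207]

lemma masks_ok : ∀ M ∈ masks, M ≠ 0 ∧ M < 2 ^ 10 := by decide

lemma masks_grid : grid nbH 10 masks = true := by decide +kernel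

theorem four_le_cH : 4 ≤ cH (join G₀ J₀) := by
  have hne : ({k | CopsWin (join G₀ J₀) k}).Nonempty := by
    refine ⟨10, copsWin_card (fun i : Fin 10 =>
      if h : (i : ℕ) < 7 then Sum.inl ⟨i, h⟩ else Sum.inr ⟨i - 7, by omega⟩) ?_⟩
    rintro (x | x)
    · exact ⟨⟨x, by omega⟩, by simp⟩
    · refine ⟨⟨7 + x, by omega⟩, ?_⟩
      simp
  have hmem : CopsWin (join G₀ J₀) (cH (join G₀ J₀)) := Nat.sInf_mem hne
  by_contra hlt
  exact not_copsWin3 masks_grid numH masks_ok (copsWin_of_le (by omega) hmem)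

lemma upsilon_J₀ : Upsilon J₀ ≤ 1 := by
  refine Nat.sInf_le ⟨{1}, ⟨⟨1, Finset.mem_singleton_self 1⟩, ?_⟩, rfl⟩
  have hsub : {x | ∀ v ∈ ({1} : Finset (Fin 3)), J₀.Adj v x} ⊆
      (↑({0} : Finset (Fin 3)) : Set (Fin 3)) := by
    intro x hx
    have h1 : J₀.Adj 1 x := hx 1 (Finset.mem_singleton_self 1)
    have h2 : ∀ x : Fin 3, ((1 : Fin 3) ≠ x ∧ ((1 : Fin 3) = 0 ∨ x = 0)) → x = 0 := by decide
    rw [h2 x h1]
    simp
  refine le_trans (Set.ncard_le_ncard hsub (Finset.finite_toSet _)) ?_
  rw [Set.ncard_coe_finset]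
  simp

/-- **Main result.**  There are connected graphs `G` (7 vertices: two `K_5` sharing a triangle) and
`J` (the path on 3 vertices) with `m(G) + m(J) ≤ 3 < 4 ≤ c_H(G ∨ J)`; hence
`c_H(G ∨ J) ≤ m(G) + m(J)` does not hold for all connected graphs `G` and `J`. -/
theorem result :
    (∃ (G : SimpleGraph (Fin 7)) (J : SimpleGraph (Fin 3)), G.Connected ∧ J.Connected ∧
      mm G + mm J ≤ 3 ∧ 4 ≤ cH (join G J)) ∧
    ¬ (∀ (V W : Type) [Fintype V] [Fintype W] (G : SimpleGraph V) (J : SimpleGraph W),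
      G.Connected → J.Connected → cH (join G J) ≤ mm G + mm J) := by
  have hm : mm G₀ + mm J₀ ≤ 3 := by
    have h1 : mm G₀ ≤ 2 := le_trans (min_le_left _ _) cH_G₀
    have h2 : mm J₀ ≤ 1 := le_trans (min_le_right _ _) upsilon_J₀
    omega
  refine ⟨⟨G₀, J₀, G₀_conn, J₀_conn, hm, four_le_cH⟩, fun h => ?_⟩
  have h1 := h (Fin 7) (Fin 3) G₀ J₀ G₀_conn J₀_conn
  have h2 := four_le_cH
  omega

end Pool.Agent.Results.MP_689627_co.JoinAboveSum
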